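import Pool.Agent.Escobar.Exact

/-!
# A counterexample to Escobar's conjecture on the first Steklov eigenvalue

On the closed unit ball `Ω` of `ℝ⁶`, with coordinates `x = (s, y)`, `s ∈ ℝ`, `y ∈ ℝ⁵`, and
`t = |y|²`, we consider metrics of the form `g = α ds² + a |dy|² + b (y·dy)²` with
`α = κ² a⁴ (a + t b)`, where `a`, `b` are functions of `s²` and `t`.  The function `u = s` is
harmonic for every such metric, and the boundary values of `a`, `b` are chosen such that
`∂_ν u = u / κ` on the unit sphere.  With `κ = 1 + 1000 ε` and explicit `a = 1 + O(ε)`,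
`b = O(ε)`, a first-order computation shows that for all small `ε > 0` the Ricci curvature is
positive while the second fundamental form of the boundary is at least `1 - 999 ε > 1 / κ`.
-/

open scoped ContDiff Topology
open Metric Filter Pool.Agent.Escobar

namespace Pool.Agent.Results.MP_08bb97_gt.EscobarCounterexample

/-- Escobar's conjecture fails: there is a smooth Riemannian metric on the closed unit ball of
`ℝ⁶` with positive Ricci curvature, with second fundamental form of the boundary sphere bounded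
below by `c > 0`, and with a Steklov eigenvalue `0 < σ < c`; in particular the first nonzero
Steklov eigenvalue is less than `c`. -/
theorem result :
    ∃ (g : E 6 → Matrix (Fin 6) (Fin 6) ℝ) (c : ℝ), IsMetric g ∧ 0 < c ∧
      (∀ x ∈ closedBall (0 : E 6) 1, ∀ X : E 6, X ≠ 0 → 0 < ricciQuad g x X) ∧
      (∀ x ∈ sphere (0 : E 6) 1, ∀ X : E 6, ∑ i, x i * X i = 0 →
        c * ip g x X X ≤ secondFF g x X X) ∧
      (∃ σ : ℝ, 0 < σ ∧ σ < c ∧ IsSteklovEigenvalue g σ) ∧ firstSteklov g < c := by
  have hs : ∀ (x : E 6) i j, ContDiffAt ℝ ω (fun q => hm q i j) (0, x) := hm_smooth_zero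
  have h1 := isMetric_small hs hm_symm
  have h2 := ricci_pos hs (by
    intro x hx v hv
    rw [hm_zero]
    exact ric0_pos x hx v hv)
  have h3 := secondFF_small hs hm_symm 999 (by
    intro x hx X hX hxX
    have := bdry0_pos x hx X hX hxX
    rw [← hm_zero] at this
    exact this)
  have h4 := ok_small
  have h5 : ∀ᶠ ε in 𝓝 (0 : ℝ), ε < 1 / 1000000 :=
    eventually_lt_nhds (by norm_num)
  have h6 : ∀ᶠ ε in 𝓝[>] (0 : ℝ), 0 < ε := eventually_mem_nhdsWithin
  obtain ⟨ε, hε, h1, h2, h3, h4, h5⟩ := (h6.and (((h1.and (h2.and (h3.and (h4.and h5))))).filter_mono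
    nhdsWithin_le_nhds)).exists
  set σ : ℝ := (1 + 1000 * ε)⁻¹ with hσ
  have hσ0 : 0 < σ := by positivity
  have hc0 : 0 < 1 - ε * 999 := by linarith
  have hσc : σ < 1 - ε * 999 := by
    rw [hσ, inv_lt_iff_one_lt_mul₀ (by positivity)]
    nlinarith
  have hst : IsSteklovEigenvalue (fun y => GG hm (ε, y)) σ := by
    refine ⟨fun y => y 0, by fun_prop, ⟨EuclideanSpace.single 0 1, ?_, ?_⟩, ?_, ?_⟩
    · simp
    · simp
    · intro x hx
      exact lap_zero hε (h4 x hx)
    · intro x hx
      have hx1 : ‖x‖ = 1 := by simpa using hx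
      refine steklov_eq hε ?_ (h4 x (sphere_subset_closedBall hx))
      rw [← norm_sq_split, hx1]; norm_num
  refine ⟨fun y => GG hm (ε, y), 1 - ε * 999, h1, hc0, h2 hε, h3 hε, ⟨σ, hσ0, hσc, hst⟩, ?_⟩
  refine lt_of_le_of_lt (csInf_le ⟨0, ?_⟩ ?_) hσc
  · rintro τ ⟨hτ, _⟩; exact hτ.le
  · exact ⟨hσ0, hst⟩

end Pool.Agent.Results.MP_08bb97_gt.EscobarCounterexample
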